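import Pool.Agent.X238.Shf.Cmp
import Pool.Agent.X238.Mcs.Pcpi

set_option autoImplicit false

/-!
# Undecidability
-/

namespace Pool.Agent.X238.Shf

open Relation

/-! ### shuffles with words of length at most one -/

theorem shuffle_nil {S : Type} {v w : List S} : IsShuffle [] v w ↔ v = w := by
  constructor
  · intro h
    generalize hu : ([] : List S) = u at h
    induction h with
    | nil => rfl
    | left => cases hu
    | right a _ ih => rw [ih hu]
  · rintro rfl
    induction v with
    | nil => exact .nil
    | cons a v ih => exact .right a ih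

theorem shuffle_single {S : Type} {a : S} {v w : List S} :
    IsShuffle [a] v w ↔ ∃ w1 w2, w = w1 ++ a :: w2 ∧ v = w1 ++ w2 := by
  constructor
  · intro h
    generalize hu : [a] = u at h
    induction h with
    | nil => cases hu
    | left b h ih =>
      simp only [List.cons.injEq] at hu
      obtain ⟨rfl, rfl⟩ := hu
      rw [shuffle_nil] at h
      exact ⟨[], _, rfl, h⟩
    | right b _ ih =>
      obtain ⟨w1, w2, h1, h2⟩ := ih hu
      exact ⟨b :: w1, w2, by rw [h1]; rfl, by rw [h2]; rfl⟩
  · rintro ⟨w1, w2, rfl, rfl⟩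
    induction w1 with
    | nil => exact .left a (shuffle_nil.2 rfl)
    | cons b w1 ih => exact .right b ih

/-! ### the table is computable -/

section comp

variable {n k : ℕ} {A : Type} {L : ℕ} (W : Bool → A → List (Fin n)) (ef : Ls (Fin n) L → ℕ)
  (eg : Gl A (Fin n) ≃ Fin k)

theorem primrec_map_const {α β K : Type} [Primcodable α] [Primcodable β] (f : K → α → β)
    (hf : ∀ x, Primrec (f x)) (l : List K) : Primrec fun a => l.map fun x => f x a := by
  induction l with
  | nil => exact Primrec.const []
  | cons x l ih => exact Primrec.list_cons.comp (hf x) ih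

theorem ap_eq (o : Kop) (m : ℕ) : o.ap m =
    if (match o with | .keep => 0 | .inc => 1 | .zero => (2 : ℕ)) = 0 then m
    else if (match o with | .keep => 0 | .inc => 1 | .zero => (2 : ℕ)) = 1 then m + 1 else 0 := by
  cases o <;> simp [Kop.ap]

theorem primrec_entry (key : Ls (Fin n) L × Option (Gl A (Fin n)) × Bool) :
    Primrec fun p : ℕ × Info (Fin n) => entry W L ef eg p.1 p.2 key := by
  have h1 : Primrec fun p : ℕ × Info (Fin n) =>
      (match (dl W L p.2 key.1 key.2.1 key.2.2).1 with
        | .keep => 0 | .inc => 1 | .zero => (2 : ℕ)) :=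
    (Primrec.dom_finite fun i : Info (Fin n) =>
      (match (dl W L i key.1 key.2.1 key.2.2).1 with
        | .keep => 0 | .inc => 1 | .zero => (2 : ℕ))).comp Primrec.snd
  have h2 : Primrec fun p : ℕ × Info (Fin n) => ef (dl W L p.2 key.1 key.2.1 key.2.2).2.1 :=
    (Primrec.dom_finite fun i : Info (Fin n) =>
      ef (dl W L i key.1 key.2.1 key.2.2).2.1).comp Primrec.snd
  have h3 : Primrec fun p : ℕ × Info (Fin n) => (dl W L p.2 key.1 key.2.1 key.2.2).2.2 :=
    (Primrec.dom_finite fun i : Info (Fin n) =>
      (dl W L i key.1 key.2.1 key.2.2).2.2).comp Primrec.snd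
  have h4 : Primrec fun p : ℕ × Info (Fin n) =>
      (dl W L p.2 key.1 key.2.1 key.2.2).1.ap p.1 := by
    refine (Primrec.ite (Primrec.eq.comp h1 (Primrec.const 0)) Primrec.fst
      (Primrec.ite (Primrec.eq.comp h1 (Primrec.const 1)) (Primrec.succ.comp Primrec.fst)
        (Primrec.const 0))).of_eq fun p => ?_
    exact (ap_eq _ _).symm
  exact Primrec.pair
    (Primrec.pair (Primrec₂.natPair.comp Primrec.fst (Primrec.const _))
      (Primrec.pair (Primrec.const _) (Primrec.const _)))
    (Primrec.pair (Primrec₂.natPair.comp h4 h2)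
      (Primrec.pair (Primrec.fst.comp h3) (Primrec.snd.comp h3)))

theorem primrec_info : Primrec₂ fun (U : List (Tok (Fin n))) (m : ℕ) => info U m :=
  Primrec.pair (Primrec.list_getElem?.comp Primrec.fst Primrec.snd)
    (Primrec.eq.decide.comp (Primrec.succ.comp Primrec.snd)
      (Primrec.list_length.comp Primrec.fst))

theorem primrec_tab (keys : List (Ls (Fin n) L × Option (Gl A (Fin n)) × Bool)) :
    Primrec fun U : List (Tok (Fin n)) => tab W L ef eg keys U := by
  refine Primrec.list_flatMap (Primrec.list_range.comp Primrec.list_length) ?_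
  exact (primrec_map_const (fun key p => entry W L ef eg p.1 p.2 key)
    (fun key => primrec_entry W ef eg key) keys).comp
      (Primrec.pair Primrec.snd (primrec_info.comp Primrec.fst Primrec.snd))

theorem primrec_mc (keys : List (Ls (Fin n) L × Option (Gl A (Fin n)) × Bool)) :
    Primrec fun U : List (Tok (Fin n)) => mc W L ef eg keys U :=
  Primrec.pair (Primrec.const _) (Primrec.pair (primrec_tab W ef eg keys) (Primrec.const _))

theorem primrec_uu : Primrec fun x : List (Fin n) => UU x := by
  unfold UU
  refine Primrec.list_append.comp (Primrec.list_cons.comp (Primrec.const _) ?_)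
    (Primrec.const _)
  refine Primrec.list_map Primrec.id ?_
  exact Primrec.pair (Primrec.const false) (Primrec.option_some.comp Primrec.snd)

theorem primrec_word (a b c : List (Fin n)) : Primrec fun m : ℕ =>
    a ++ (List.range m).flatMap (fun _ => b) ++ c := by
  refine Primrec.list_append.comp (Primrec.list_append.comp (Primrec.const _) ?_)
    (Primrec.const _)
  exact Primrec.list_flatMap Primrec.list_range (Primrec.const _).to₂

end comp

/-! ### the regular languages -/

theorem regular_top {S : Type} : (⊤ : Language S).IsRegular := by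
  refine ⟨Unit, inferInstance, ⟨fun _ _ => (), (), Set.univ⟩, ?_⟩
  ext w
  exact ⟨fun _ => trivial, fun _ => trivial⟩

theorem regular_two {S : Type} (a : S) : Language.IsRegular ({[], [a]} : Language S) := by
  classical
  refine ⟨Fin 3, inferInstance, ⟨fun q s => if q = 0 ∧ s = a then 1 else 2, 0, {0, 1}⟩, ?_⟩
  have h2 : ∀ w : List S, (⟨fun q s => if q = 0 ∧ s = a then 1 else 2, 0, {0, 1}⟩ :
      DFA S (Fin 3)).evalFrom 2 w = 2 := by
    intro w
    induction w with
    | nil => rfl
    | cons s w ih => simpa using ih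
  ext w
  change (⟨fun q s => if q = 0 ∧ s = a then 1 else 2, 0, {0, 1}⟩ :
      DFA S (Fin 3)).evalFrom 0 w ∈ ({0, 1} : Set (Fin 3)) ↔ w = [] ∨ w = [a]
  rcases w with _ | ⟨s, w⟩
  · simp
  · rw [DFA.evalFrom_cons]
    by_cases hs : s = a
    · subst hs
      simp only [and_self, if_true, List.cons_ne_nil, false_or, List.cons.injEq, true_and]
      rcases w with _ | ⟨t, w⟩
      · simp
      · rw [DFA.evalFrom_cons]
        simp [h2]
    · simp [hs, h2]

/-! ### the main theorem -/

/-- reduction -/
theorem exists_reduction : ∃ (k : ℕ) (a : Fin k), ∀ Z : ℕ → Prop, REPred Z →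
    ∃ f : ℕ → Mach, Computable f ∧ (∀ n, OneReversal k (f n)) ∧
      ∀ n, ((⊤ : Language (Fin k)) = Sh {[], [a]} (Lang k (f n)) ↔ ¬ Z n) := by
  classical
  obtain ⟨X, A, hX, hA, G, H, -, -, a, b, c, ha, hF⟩ := Mcs.exists_pairs
  obtain ⟨n, ⟨e⟩⟩ := Finite.exists_equiv_fin X
  have := Fintype.ofFinite A
  let W : Bool → A → List (Fin n) := fun t i =>
    match t with
    | false => ((G i).map e).reverse
    | true => ((H i).map e).reverse
  obtain ⟨L, hL⟩ : ∃ L, ∀ t i, (W t i).length ≤ L := by
    obtain ⟨L1, h1⟩ := Finite.exists_le fun i => (W false i).length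
    obtain ⟨L2, h2⟩ := Finite.exists_le fun i => (W true i).length
    refine ⟨max L1 L2, fun t i => ?_⟩
    cases t
    · exact (h1 i).trans (le_max_left _ _)
    · exact (h2 i).trans (le_max_right _ _)
  let k := Fintype.card (Gl A (Fin n))
  let eg : Gl A (Fin n) ≃ Fin k := Fintype.equivFin _
  let ef : Ls (Fin n) L → ℕ := fun s => (Fintype.equivFin (Ls (Fin n) L) s).val
  have hef : Function.Injective ef := fun s t h => (Fintype.equivFin _).injective (Fin.ext h)
  let keys : List (Ls (Fin n) L × Option (Gl A (Fin n)) × Bool) := Finset.univ.toList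
  have hk : ∀ x, x ∈ keys := fun x => by simp [keys]
  refine ⟨k, eg .al, fun Z hZ => ?_⟩
  obtain ⟨F, hFc, hF'⟩ := hF Z hZ
  let x : ℕ → List (Fin n) := fun m =>
    a.map e ++ (List.range (F m)).flatMap (fun _ => b.map e) ++ c.map e
  refine ⟨fun m => mc W L ef eg keys (UU (x m)), ?_, fun m => oneReversal hef _, fun m => ?_⟩
  · have h1 : Primrec fun m : ℕ => mc W L ef eg keys
        (UU (a.map e ++ (List.range m).flatMap (fun _ => b.map e) ++ c.map e)) :=
      (primrec_mc W ef eg keys).comp (primrec_uu.comp (primrec_word _ _ _))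
    exact h1.to_comp.comp hFc
  -- the solutions
  have hsol : (∃ (y : List (Fin n)) (J : List A), J.flatMap (W false) = (x m ++ y).reverse ∧
      J.flatMap (W true) = y.reverse) ↔ Z m := by
    rw [← hF' m]
    have hrev : ∀ (P : A → List X) (J : List A),
        J.flatMap (fun i => ((P i).map e).reverse) = ((J.reverse.flatMap P).map e).reverse := by
      intro P J
      induction J with
      | nil => rfl
      | cons i J ih => simp [ih]
    have hx : x m = (a ++ (List.range (F m)).flatMap (fun _ => b) ++ c).map e := by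
      simp only [x, List.map_append]
      congr 2
      rw [List.map_flatMap]
    constructor
    · rintro ⟨y, J, h1, h2⟩
      change J.flatMap (fun i => ((G i).map e).reverse) = _ at h1
      change J.flatMap (fun i => ((H i).map e).reverse) = _ at h2
      rw [hrev] at h1 h2
      have h3 := List.reverse_injective h1
      have h4 := List.reverse_injective h2
      refine ⟨J.reverse, ?_, ?_⟩
      · intro h5
        rw [h5, hx] at h3
        simp only [List.flatMap_nil, List.map_nil] at h3
        have h6 := congrArg List.length h3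
        simp only [List.length_nil, List.length_append, List.length_map] at h6
        exact ha (List.length_eq_zero_iff.1 (by omega))
      · rw [hx, ← h4, ← List.map_append] at h3
        exact (List.map_injective_iff.2 e.injective h3).symm
    · rintro ⟨is, -, h⟩
      refine ⟨(is.flatMap H).map e, is.reverse, ?_, ?_⟩
      · change is.reverse.flatMap (fun i => ((G i).map e).reverse) = _
        rw [hrev, List.reverse_reverse, ← h, hx, List.map_append]
      · change is.reverse.flatMap (fun i => ((H i).map e).reverse) = _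
        rw [hrev, List.reverse_reverse]
  rw [← hsol, ← acc_iff W (x m)]
  have hmem : ∀ v : List (Fin k), v ∈ Lang k (mc W L ef eg keys (UU (x m))) ↔
      acc W (x m) (v.map eg.symm) = true := by
    intro v
    rw [← mem_lang (ef := ef) (eg := eg) hef hk hL (x m)]
    simp
  have hsh : ∀ v : List (Fin k), v ∈ Sh {[], [eg .al]} (Lang k (mc W L ef eg keys (UU (x m)))) ↔
      (acc W (x m) (v.map eg.symm) = true ∨ ∃ w1 w2, v.map eg.symm = w1 ++ .al :: w2 ∧
        acc W (x m) (w1 ++ w2) = true) := by
    intro v
    constructor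
    · rintro ⟨u, hu, v', hv', h⟩
      rcases hu with rfl | rfl
      · rw [shuffle_nil] at h
        subst h
        exact Or.inl ((hmem _).1 hv')
      · rw [shuffle_single] at h
        obtain ⟨w1, w2, rfl, rfl⟩ := h
        refine Or.inr ⟨w1.map eg.symm, w2.map eg.symm, by simp, ?_⟩
        rw [← List.map_append]
        exact (hmem _).1 hv'
    · rintro (h | ⟨w1, w2, h1, h2⟩)
      · exact ⟨[], Or.inl rfl, v, (hmem _).2 h, shuffle_nil.2 rfl⟩
      · refine ⟨[eg .al], Or.inr rfl, (w1 ++ w2).map eg, ?_, ?_⟩
        · rw [hmem]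
          simpa using h2
        · rw [shuffle_single]
          refine ⟨w1.map eg, w2.map eg, ?_, by simp⟩
          have := congrArg (List.map eg) h1
          simpa using this
  constructor
  · intro h w
    have h1 : w.map eg ∈ (⊤ : Language (Fin k)) := trivial
    rw [h, hsh] at h1
    simpa using h1
  · intro h
    ext v
    refine ⟨fun _ => (hsh v).2 (h _), fun _ => trivial⟩

/-- Undecidability of the equality `Σ^* = {λ, a} ⧢ L₂`. -/
theorem main_eq : ∃ (k : ℕ) (a : Fin k), (⊤ : Language (Fin k)).IsRegular ∧
    Language.IsRegular ({[], [a]} : Language (Fin k)) ∧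
    ¬ ∃ f : Mach → Bool, Computable f ∧ ∀ M, OneReversal k M →
      (f M = true ↔ (⊤ : Language (Fin k)) = Sh {[], [a]} (Lang k M)) := by
  obtain ⟨k, a, h⟩ := exists_reduction
  refine ⟨k, a, regular_top, regular_two a, ?_⟩
  rintro ⟨f, hf, hf'⟩
  obtain ⟨Z, hZ, hZ'⟩ := Pool.Agent.Y669.TA.SysU.exists_re_not_co
  obtain ⟨g, hg, hg1, hg2⟩ := h Z hZ
  apply hZ'
  have hdec : ComputablePred fun n => ¬ Z n := by
    refine ComputablePred.computable_iff.2 ⟨fun n => f (g n), hf.comp hg, ?_⟩
    funext n
    exact propext (((hf' (g n) (hg1 n)).trans (hg2 n)).symm)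
  exact hdec.to_re

/-- Undecidability of the inclusion `Σ^* ⊆ {λ, a} ⧢ L₂`. -/
theorem main_le : ∃ (k : ℕ) (a : Fin k), (⊤ : Language (Fin k)).IsRegular ∧
    Language.IsRegular ({[], [a]} : Language (Fin k)) ∧
    ¬ ∃ f : Mach → Bool, Computable f ∧ ∀ M, OneReversal k M →
      (f M = true ↔ (⊤ : Language (Fin k)) ≤ Sh {[], [a]} (Lang k M)) := by
  obtain ⟨k, a, h1, h2, h3⟩ := main_eq
  refine ⟨k, a, h1, h2, ?_⟩
  rintro ⟨f, hf, hf'⟩
  refine h3 ⟨f, hf, fun M hM => ?_⟩
  rw [hf' M hM]
  exact ⟨fun h => (top_le_iff.1 h).symm, fun h => h.le⟩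

end Pool.Agent.X238.Shf
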