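import Pool.Agent.X238.Shf.Macro

set_option autoImplicit false

/-!
# The one-counter machine
-/

namespace Pool.Agent.X238.Shf

open Relation

/-- local states of the format check -/
inductive Lf (X : Type) : Type
  | pr
  | wg
  | wh (a : X)
  deriving Fintype

/-- local states of the machine -/
inductive Ls (X : Type) (L : ℕ) : Type
  | p1 (φ : Lf X) (m : Bool) (d : Option (Tok X))
  | p2n
  | cm (t : Tok X) (s : Fin (L + 1))
  | rs (b : Bool)
  | fin (b : Bool)
  | ok
  deriving Fintype

/-- operations on the position register -/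
inductive Kop : Type
  | keep
  | inc
  | zero

/-- the effect on the position register -/
def Kop.ap : Kop → ℕ → ℕ
  | .keep, n => n
  | .inc, n => n + 1
  | .zero, _ => 0

deriving instance Fintype for Gl

variable {A X : Type} [DecidableEq X] {L : ℕ}

/-- the local information at a position of the fixed beginning -/
abbrev Info (X : Type) : Type := Option (Tok X) × Bool

/-- the information -/
def info (U : List (Tok X)) (n : ℕ) : Info X := (U[n]?, decide (n + 1 = U.length))

/-- the format check -/
def lfs (i : Info X) : Lf X → Tok X → Option (Kop × Lf X)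
  | .pr, t => if i.1 = some t then (if i.2 then some (.zero, .wg) else some (.inc, .pr)) else none
  | .wg, (false, some a) => some (.zero, .wh a)
  | .wg, _ => none
  | .wh a, (true, some b) => if a = b then some (.zero, .wg) else none
  | .wh _, _ => none

/-- the local transition function: operation on the position register, new state, move of the
head, operation on the counter -/
def dl (W : Bool → A → List X) (L : ℕ) (i : Info X) :
    Ls X L → Option (Gl A X) → Bool → Kop × Ls X L × Bool × ℕ
  | .p1 _ _ _, none, _ => (.zero, .fin true, true, 0)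
  | .p1 φ false d, some .al, _ => (.keep, .p1 φ true d, true, 0)
  | .p1 _ true _, some .al, _ => (.zero, .ok, true, 0)
  | .p1 φ m d, some (.tk t), _ =>
      match lfs i φ t with
      | none => (.zero, .ok, true, 0)
      | some (κ, φ') =>
        if m then (κ, .p1 φ' false d, true, if d.map Prod.fst = some t.1 then 1 else 0)
        else match d with
          | some _ => (.zero, .ok, true, 0)
          | none => (κ, .p1 φ' false (some t), true, 0)
  | .p1 .wg false none, some .hs, _ => (.zero, .p2n, true, 0)
  | .p1 .wg false (some t), some .hs, _ => (.zero, .cm t 0, true, 0)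
  | .p1 _ _ _, some .hs, _ => (.zero, .ok, true, 0)
  | .p1 _ _ _, some (.ix _), _ => (.zero, .ok, true, 0)
  | .p2n, none, _ => (.zero, .fin false, true, 0)
  | .p2n, some (.ix _), _ => (.zero, .p2n, true, 0)
  | .p2n, some _, _ => (.zero, .ok, true, 0)
  | .cm t _, none, _ => (.zero, .fin (decide (none ≠ t.2)), true, 0)
  | .cm t s, some (.ix i), z =>
      if h : s.val < (W t.1 i).length then
        (if z then (.zero, .rs (decide (some (W t.1 i)[s.val] ≠ t.2)), true, 0)
          else (.zero, .cm t ⟨min (s.val + 1) L, by omega⟩, false, 2))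
      else (.zero, .cm t 0, true, 0)
  | .cm _ _, some _, _ => (.zero, .ok, true, 0)
  | .rs b, none, _ => (.zero, .fin b, true, 0)
  | .rs b, some (.ix _), _ => (.zero, .rs b, true, 0)
  | .rs _, some _, _ => (.zero, .ok, true, 0)
  | .fin b, _, _ => (.zero, .fin b, true, 0)
  | .ok, none, _ => (.zero, .fin true, true, 0)
  | .ok, some _, _ => (.zero, .ok, true, 0)

/-- second phase -/
def ph : Ls X L → Bool
  | .p1 _ _ _ => false
  | _ => true

theorem dl_ph (W : Bool → A → List X) (i : Info X) (s : Ls X L) (g : Option (Gl A X)) (z : Bool) :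
    (ph s = true → ph (dl W L i s g z).2.1 = true) ∧
      ((dl W L i s g z).2.2.2 = 1 → ph s = false) ∧
      ((dl W L i s g z).2.2.2 = 2 → ph s = true) := by
  cases s with
  | p1 φ m d =>
    refine ⟨by simp [ph], fun _ => rfl, ?_⟩
    intro h
    exfalso
    rcases g with _ | g
    · simp [dl] at h
    cases g with
    | al => cases m <;> simp [dl] at h
    | ix i => cases m <;> cases d <;> cases φ <;> simp [dl] at h
    | hs => cases m <;> cases d <;> cases φ <;> simp [dl] at h
    | tk t =>
      simp only [dl] at h
      split at h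
      · simp at h
      · split_ifs at h
        all_goals first | (simp at h; done) | (cases d <;> simp at h; done)
  | p2n =>
    rcases g with _ | g
    · simp [ph, dl]
    · cases g <;> simp [ph, dl]
  | cm t s =>
    rcases g with _ | g
    · simp [ph, dl]
    · cases g with
      | ix j =>
        simp only [dl, ph]
        split_ifs <;> simp
      | _ => simp [ph, dl]
  | rs b =>
    rcases g with _ | g
    · simp [ph, dl]
    · cases g <;> simp [ph, dl]
  | fin b => simp [ph, dl]
  | ok =>
    rcases g with _ | g <;> simp [ph, dl]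

/-! ### the table -/

/-- the symbol code -/
def sc {k : ℕ} (eg : Gl A X ≃ Fin k) (g : Option (Gl A X)) : ℕ :=
  match g with
  | none => k
  | some g => (eg g).val

/-- an entry of the table -/
def entry {k : ℕ} (W : Bool → A → List X) (L : ℕ) (ef : Ls X L → ℕ) (eg : Gl A X ≃ Fin k) (κ : ℕ) (i : Info X) (key : Ls X L × Option (Gl A X) × Bool) :
    (ℕ × ℕ × Bool) × (ℕ × Bool × ℕ) :=
  ((Nat.pair κ (ef key.1), sc eg key.2.1, key.2.2),
    (Nat.pair ((dl W L i key.1 key.2.1 key.2.2).1.ap κ) (ef (dl W L i key.1 key.2.1 key.2.2).2.1),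
      (dl W L i key.1 key.2.1 key.2.2).2.2.1, (dl W L i key.1 key.2.1 key.2.2).2.2.2))

/-- the table -/
def tab {k : ℕ} (W : Bool → A → List X) (L : ℕ) (ef : Ls X L → ℕ) (eg : Gl A X ≃ Fin k)
    (keys : List (Ls X L × Option (Gl A X) × Bool)) (U : List (Tok X)) :
    List ((ℕ × ℕ × Bool) × (ℕ × Bool × ℕ)) :=
  (List.range U.length).flatMap fun κ => keys.map fun key => entry W L ef eg κ (info U κ) key

/-- the machine -/
def mc {k : ℕ} (W : Bool → A → List X) (L : ℕ) (ef : Ls X L → ℕ) (eg : Gl A X ≃ Fin k)
    (keys : List (Ls X L × Option (Gl A X) × Bool)) (U : List (Tok X)) : Mach :=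
  (Nat.pair 0 (ef (.p1 .pr false none)), tab W L ef eg keys U, [Nat.pair 0 (ef (.fin true))])

theorem mem_of_lookup {α β : Type} [BEq α] [LawfulBEq α] {l : List (α × β)} {k : α} {v : β}
    (h : l.lookup k = some v) : (k, v) ∈ l := by
  induction l with
  | nil => simp at h
  | cons x l ih =>
    obtain ⟨k', v'⟩ := x
    rw [List.lookup_cons] at h
    by_cases hk : k = k'
    · subst hk
      simp only [beq_self_eq_true, Option.some.injEq] at h
      subst h
      simp
    · have : (k == k') = false := by simpa using hk
      simp only [this] at h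
      exact List.mem_cons_of_mem _ (ih h)

theorem lookup_eq_of {α β : Type} [BEq α] [LawfulBEq α] {l : List (α × β)} {k : α} {v : β}
    (h : (k, v) ∈ l) (hu : ∀ v', (k, v') ∈ l → v' = v) : l.lookup k = some v := by
  induction l with
  | nil => simp at h
  | cons x l ih =>
    obtain ⟨k', v'⟩ := x
    rw [List.lookup_cons]
    by_cases hk : k = k'
    · subst hk
      simp only [beq_self_eq_true, Option.some.injEq]
      exact hu v' (by simp)
    · have h1 : (k == k') = false := by simpa using hk
      simp only [h1]
      rcases List.mem_cons.1 h with h2 | h2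
      · exact absurd (Prod.ext_iff.1 h2).1 hk
      · exact ih h2 fun v'' h3 => hu v'' (List.mem_cons_of_mem _ h3)

section sim

variable {k : ℕ} {W : Bool → A → List X} {ef : Ls X L → ℕ} {eg : Gl A X ≃ Fin k}
  {keys : List (Ls X L × Option (Gl A X) × Bool)} {U : List (Tok X)}

theorem sc_inj {g g' : Option (Gl A X)} (h : sc eg g = sc eg g') : g = g' := by
  rcases g with _ | g <;> rcases g' with _ | g'
  · rfl
  · simp only [sc] at h
    have := (eg g').isLt
    omega
  · simp only [sc] at h
    have := (eg g).isLt
    omega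
  · simp only [sc] at h
    rw [eg.injective (Fin.ext h)]

theorem lookup_tab (hf : Function.Injective ef) (hk : ∀ x, x ∈ keys) {κ : ℕ} (hκ : κ < U.length)
    (s : Ls X L) (g : Option (Gl A X)) (z : Bool) :
    (tab W L ef eg keys U).lookup (Nat.pair κ (ef s), sc eg g, z) =
      some (entry W L ef eg κ (info U κ) (s, g, z)).2 := by
  apply lookup_eq_of
  · simp only [tab, List.mem_flatMap, List.mem_range, List.mem_map]
    exact ⟨κ, hκ, (s, g, z), hk _, rfl⟩
  · intro v' h
    simp only [tab, List.mem_flatMap, List.mem_range, List.mem_map] at h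
    obtain ⟨κ', -, ⟨s', g', z'⟩, -, h⟩ := h
    have h1 := congrArg (fun x => x.1.1) h
    have h2 := congrArg (fun x => x.1.2.1) h
    have h3 := congrArg (fun x => x.1.2.2) h
    simp only [entry, Nat.pair_eq_pair] at h1 h2 h3
    obtain ⟨rfl, h1⟩ := h1
    obtain rfl := hf h1
    obtain rfl := sc_inj h2
    obtain rfl := h3
    exact (congrArg Prod.snd h).symm

/-- configurations -/
def cf (ef : Ls X L → ℕ) (eg : Gl A X ≃ Fin k) (κ : ℕ) (s : Ls X L) (v : Option (List (Gl A X)))
    (c : ℕ) : Cfg k :=
  ⟨Nat.pair κ (ef s), v.map (List.map eg), c⟩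

omit [DecidableEq X] in
theorem sym_map (v : List (Gl A X)) : sym (v.map eg) = sc eg v.head? := by
  cases v <;> rfl

omit [DecidableEq X] in
theorem adv_map (v : List (Gl A X)) :
    adv (v.map eg) = (if v = [] then none else some v.tail).map (List.map eg) := by
  cases v <;> simp [adv]

omit [DecidableEq X] in
theorem step_some {M : Mach} {q : ℕ} {w : List (Fin k)} {c q' : ℕ} {b : Bool} {o : ℕ}
    (h : M.2.1.lookup (q, sym w, decide (c = 0)) = some (q', b, o)) :
    step M (⟨q, some w, c⟩ : Cfg k) = if o = 2 ∧ c = 0 then none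
      else some ⟨q', if b then adv w else some w,
        if o = 1 then c + 1 else if o = 2 then c - 1 else c⟩ := by
  change (match M.2.1.lookup (q, sym w, decide (c = 0)) with
    | none => none
    | some (q', b, o) =>
      if o = 2 ∧ c = 0 then none
      else some (⟨q', if b then adv w else some w,
        if o = 1 then c + 1 else if o = 2 then c - 1 else c⟩ : Cfg k)) = _
  rw [h]

theorem step_cf (hf : Function.Injective ef) (hk : ∀ x, x ∈ keys) {κ : ℕ} (hκ : κ < U.length)
    (s : Ls X L) (v : List (Gl A X)) (c : ℕ) :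
    step (mc W L ef eg keys U) (cf ef eg κ s (some v) c) =
      let r := dl W L (info U κ) s v.head? (decide (c = 0))
      if r.2.2.2 = 2 ∧ c = 0 then none
      else some (cf ef eg (r.1.ap κ) r.2.1
        (if r.2.2.1 then (if v = [] then none else some v.tail) else some v)
        (if r.2.2.2 = 1 then c + 1 else if r.2.2.2 = 2 then c - 1 else c)) := by
  have h := lookup_tab (W := W) (eg := eg) (U := U) hf hk hκ s v.head? (decide (c = 0))
  rw [← sym_map] at h
  have h0 := step_some (M := mc W L ef eg keys U) (c := c) h
  simp only [cf, Option.map_some]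
  rw [h0]
  by_cases h2 : (dl W L (info U κ) s v.head? (decide (c = 0))).2.2.2 = 2 ∧ c = 0
  · rw [if_pos h2, if_pos h2]
  · rw [if_neg h2, if_neg h2]
    by_cases h3 : (dl W L (info U κ) s v.head? (decide (c = 0))).2.2.1 = true
    · simp only [h3, if_true, adv_map]
    · simp only [h3, if_false, Option.map_some, Bool.false_eq_true]

/-- computations of the machine, in terms of local states -/
abbrev Rc (W : Bool → A → List X) (ef : Ls X L → ℕ) (eg : Gl A X ≃ Fin k)
    (keys : List (Ls X L × Option (Gl A X) × Bool)) (U : List (Tok X)) (κ : ℕ) (s : Ls X L)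
    (v : Option (List (Gl A X))) (c : ℕ) (κ' : ℕ) (s' : Ls X L) (v' : Option (List (Gl A X)))
    (c' : ℕ) : Prop :=
  Reach (mc W L ef eg keys U) (cf ef eg κ s v c) (cf ef eg κ' s' v' c')

theorem rc_step (hf : Function.Injective ef) (hk : ∀ x, x ∈ keys) {κ κ' : ℕ} (hκ : κ < U.length)
    {s s' : Ls X L} {v : List (Gl A X)} {v' : Option (List (Gl A X))} {c c' : ℕ}
    (h : ¬ ((dl W L (info U κ) s v.head? (decide (c = 0))).2.2.2 = 2 ∧ c = 0))
    (h1 : (dl W L (info U κ) s v.head? (decide (c = 0))).1.ap κ = κ')
    (h2 : (dl W L (info U κ) s v.head? (decide (c = 0))).2.1 = s')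
    (h3 : (if (dl W L (info U κ) s v.head? (decide (c = 0))).2.2.1 then
      (if v = [] then none else some v.tail) else some v) = v')
    (h4 : (if (dl W L (info U κ) s v.head? (decide (c = 0))).2.2.2 = 1 then c + 1 else
      if (dl W L (info U κ) s v.head? (decide (c = 0))).2.2.2 = 2 then c - 1 else c) = c') :
    Rc W ef eg keys U κ s (some v) c κ' s' v' c' := by
  apply ReflTransGen.single
  rw [step_cf hf hk hκ]
  simp only
  rw [if_neg h, h1, h2, h3, h4]

/-- one step with a move of the head and without a change of the counter -/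
theorem rc0 (hf : Function.Injective ef) (hk : ∀ x, x ∈ keys) {κ : ℕ} (hκ : κ < U.length)
    {s s' : Ls X L} {v : List (Gl A X)} {c : ℕ} {o : Kop}
    (h : dl W L (info U κ) s v.head? (decide (c = 0)) = (o, s', true, 0)) :
    Rc W ef eg keys U κ s (some v) c (o.ap κ) s' (if v = [] then none else some v.tail) c := by
  apply rc_step hf hk hκ <;> simp [h]

theorem rc_ok (hf : Function.Injective ef) (hk : ∀ x, x ∈ keys) (hU : 0 < U.length)
    (v : List (Gl A X)) (c : ℕ) :
    Rc W ef eg keys U 0 .ok (some v) c 0 (.fin true) none c := by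
  induction v with
  | nil => exact rc0 (o := .zero) hf hk hU rfl
  | cons g v ih => exact ReflTransGen.trans (rc0 (o := .zero) hf hk hU rfl) ih

theorem rc_p2n (hf : Function.Injective ef) (hk : ∀ x, x ∈ keys) (hU : 0 < U.length)
    (v : List (Gl A X)) (c : ℕ) :
    Rc W ef eg keys U 0 .p2n (some v) c 0 (.fin (!(allIx v))) none c := by
  induction v with
  | nil => exact rc0 (o := .zero) hf hk hU rfl
  | cons g v ih =>
    cases g with
    | ix i => exact ReflTransGen.trans (rc0 (o := .zero) hf hk hU rfl) ih
    | _ => exact ReflTransGen.trans (rc0 (o := .zero) hf hk hU rfl) (rc_ok hf hk hU v c)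

theorem rc_rs (hf : Function.Injective ef) (hk : ∀ x, x ∈ keys) (hU : 0 < U.length)
    (b : Bool) (v : List (Gl A X)) (c : ℕ) :
    Rc W ef eg keys U 0 (.rs b) (some v) c 0 (.fin (if allIx v then b else true)) none c := by
  induction v with
  | nil => exact rc0 (o := .zero) hf hk hU rfl
  | cons g v ih =>
    cases g with
    | ix i => exact ReflTransGen.trans (rc0 (o := .zero) hf hk hU rfl) ih
    | _ => exact ReflTransGen.trans (rc0 (o := .zero) hf hk hU rfl) (rc_ok hf hk hU v c)

theorem rc_cm (hf : Function.Injective ef) (hk : ∀ x, x ∈ keys) (hU : 0 < U.length)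
    (hL : ∀ b i, (W b i).length ≤ L) (t : Tok X) (i : A) (v : List (Gl A X)) :
    ∀ (c s : ℕ) (hs : s ≤ (W t.1 i).length),
      (∀ h : s + c < (W t.1 i).length,
        Rc W ef eg keys U 0 (.cm t ⟨s, by have := hL t.1 i; omega⟩) (some (.ix i :: v)) c 0
          (.rs (decide (some (W t.1 i)[s + c] ≠ t.2))) (some v) 0) ∧
      (¬ s + c < (W t.1 i).length →
        Rc W ef eg keys U 0 (.cm t ⟨s, by have := hL t.1 i; omega⟩) (some (.ix i :: v)) c 0
          (.cm t 0) (some v) (c - ((W t.1 i).length - s))) := by
  intro c
  induction c with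
  | zero =>
    intro s hs
    refine ⟨fun h => ?_, fun h => ?_⟩
    · have h0 : s < (W t.1 i).length := by omega
      refine rc0 (o := .zero) hf hk hU ?_
      simp [dl, h0]
    · have h0 : ¬ s < (W t.1 i).length := by omega
      have : 0 - ((W t.1 i).length - s) = 0 := by omega
      rw [this]
      refine rc0 (o := .zero) hf hk hU ?_
      simp [dl, h0]
  | succ c ih =>
    intro s hs
    by_cases h0 : s < (W t.1 i).length
    · have hst : Rc W ef eg keys U 0 (.cm t ⟨s, by have := hL t.1 i; omega⟩) (some (.ix i :: v))
          (c + 1) 0 (.cm t ⟨s + 1, by have := hL t.1 i; omega⟩) (some (.ix i :: v)) c := by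
        have hm : min (s + 1) L = s + 1 := by have := hL t.1 i; omega
        apply rc_step hf hk hU <;> simp [dl, h0, hm, Kop.ap]
      obtain ⟨ih1, ih2⟩ := ih (s + 1) (by omega)
      refine ⟨fun h => ?_, fun h => ?_⟩
      · have := hst.trans (ih1 (by omega))
        have e : s + 1 + c = s + (c + 1) := by omega
        simp only [e] at this
        exact this
      · have := hst.trans (ih2 (by omega))
        have e : c - ((W t.1 i).length - (s + 1)) = c + 1 - ((W t.1 i).length - s) := by omega
        rw [e] at this
        exact this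
    · refine ⟨fun h => by omega, fun h => ?_⟩
      have : c + 1 - ((W t.1 i).length - s) = c + 1 := by omega
      rw [this]
      refine rc0 (o := .zero) hf hk hU ?_
      simp [dl, h0]

theorem rc_run2 (hf : Function.Injective ef) (hk : ∀ x, x ∈ keys) (hU : 0 < U.length)
    (hL : ∀ b i, (W b i).length ≤ L) (t : Tok X) (v : List (Gl A X)) : ∀ c,
    ∃ c', Rc W ef eg keys U 0 (.cm t 0) (some v) c 0 (.fin (run2 W t c v)) none c' := by
  obtain ⟨b, e⟩ := t
  induction v with
  | nil => intro c; exact ⟨c, rc0 (o := .zero) hf hk hU rfl⟩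
  | cons g v ih =>
    intro c
    cases g with
    | ix i =>
      obtain ⟨h1, h2⟩ := rc_cm (ef := ef) (eg := eg) hf hk hU hL (b, e) i v c 0 (Nat.zero_le _)
      simp only [Nat.zero_add, Nat.sub_zero] at h1 h2
      simp only [run2]
      by_cases h : c < (W b i).length
      · simp only [h, dif_pos]
        exact ⟨0, (h1 h).trans (rc_rs hf hk hU _ v 0)⟩
      · simp only [h, dif_neg, not_false_eq_true]
        obtain ⟨c', hc⟩ := ih (c - (W b i).length)
        exact ⟨c', (h2 h).trans hc⟩
    | _ =>
      refine ⟨c, ReflTransGen.trans (rc0 (o := .zero) hf hk hU rfl) ?_⟩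
      rw [show run2 W (b, e) c _ = true by simp [run2]]
      exact rc_ok hf hk hU v c

/-- local state of a format state -/
def lf : Fs X → Lf X
  | .pre _ => .pr
  | .wg => .wg
  | .wh a => .wh a

/-- position of a format state -/
def ko : Fs X → ℕ
  | .pre n => n
  | .wg => 0
  | .wh _ => 0

theorem lfs_fs (φ : Fs X) (hφ : ko φ < U.length) (t : Tok X) :
    (fs U φ t = none ∧ lfs (info U (ko φ)) (lf φ) t = none) ∨
    ∃ φ' o, fs U φ t = some φ' ∧ lfs (info U (ko φ)) (lf φ) t = some (o, lf φ') ∧
      o.ap (ko φ) = ko φ' ∧ ko φ' < U.length := by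
  have hU : 0 < U.length := by omega
  cases φ with
  | pre n =>
    simp only [ko] at hφ
    simp only [fs, lf, ko, lfs, info]
    by_cases h1 : U[n]? = some t
    · right
      by_cases h2 : n + 1 = U.length
      · exact ⟨.wg, .zero, by simp [h1, h2], by simp [h1, h2, lf], rfl, hU⟩
      · exact ⟨.pre (n + 1), .inc, by simp [h1, h2], by simp [h1, h2, lf], rfl, by
          simp only [ko]; omega⟩
    · left; simp [h1]
  | wg =>
    obtain ⟨b, e⟩ := t
    rcases b with _ | _ <;> rcases e with _ | a
    · left; exact ⟨rfl, rfl⟩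
    · right; exact ⟨.wh a, .zero, rfl, rfl, rfl, hU⟩
    · left; exact ⟨rfl, rfl⟩
    · left; exact ⟨rfl, rfl⟩
  | wh a =>
    obtain ⟨b, e⟩ := t
    rcases b with _ | _ <;> rcases e with _ | a'
    · left; exact ⟨rfl, rfl⟩
    · left; exact ⟨rfl, rfl⟩
    · left; exact ⟨rfl, rfl⟩
    · by_cases h : a = a'
      · right; exact ⟨.wg, .zero, by simp [fs, h], by simp [lfs, lf, h], rfl, hU⟩
      · left; simp [fs, lfs, lf, h]

theorem rc_run1 (hf : Function.Injective ef) (hk : ∀ x, x ∈ keys) (hU : 0 < U.length)
    (hL : ∀ b i, (W b i).length ≤ L) (v : List (Gl A X)) :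
    ∀ (φ : Fs X) (m : Bool) (d : Option (Tok X)) (c : ℕ), ko φ < U.length →
    ∃ c', Rc W ef eg keys U (ko φ) (.p1 (lf φ) m d) (some v) c 0 (.fin (run1 W U φ m d c v))
      none c' := by
  induction v with
  | nil =>
    intro φ m d c hφ
    refine ⟨c, ?_⟩
    have : run1 W U φ m d c [] = true := by simp [run1]
    rw [this]
    exact rc0 (o := .zero) hf hk hφ rfl
  | cons g v ih =>
    intro φ m d c hφ
    cases g with
    | ix i =>
      have : run1 W U φ m d c (.ix i :: v) = true := by simp [run1]
      rw [this]
      refine ⟨c, ReflTransGen.trans (rc0 (o := .zero) (s' := .ok) hf hk hφ ?_)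
        (rc_ok hf hk hU v c)⟩
      cases m <;> cases d <;> rfl
    | al =>
      cases m with
      | false =>
        obtain ⟨c', h⟩ := ih φ true d c hφ
        exact ⟨c', ReflTransGen.trans (rc0 (o := .keep) hf hk hφ rfl) h⟩
      | true =>
        have : run1 W U φ true d c (.al :: v) = true := by simp [run1]
        rw [this]
        exact ⟨c, ReflTransGen.trans (rc0 (o := .zero) (s' := .ok) hf hk hφ rfl)
          (rc_ok hf hk hU v c)⟩
    | hs =>
      by_cases h : (lf φ = .wg ∧ m = false)
      · obtain ⟨h1, rfl⟩ := h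
        obtain rfl : φ = .wg := by cases φ <;> simp [lf] at h1 ⊢
        cases d with
        | none =>
          refine ⟨c, ReflTransGen.trans (rc0 (o := .zero) (s' := .p2n) hf hk hφ rfl) ?_⟩
          rw [show run1 W U .wg false none c (.hs :: v) = !(allIx v) by simp [run1]]
          exact rc_p2n hf hk hU v c
        | some t =>
          obtain ⟨c', h⟩ := rc_run2 (ef := ef) (eg := eg) hf hk hU hL t v c
          refine ⟨c', ReflTransGen.trans (rc0 (o := .zero) (s' := .cm t 0) hf hk hφ rfl) ?_⟩
          rw [show run1 W U .wg false (some t) c (.hs :: v) = run2 W t c v by simp [run1]]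
          exact h
      · have h1 : run1 W U φ m d c (.hs :: v) = true := by
          cases φ <;> cases m <;> cases d <;> simp_all [run1, lf]
        rw [h1]
        refine ⟨c, ReflTransGen.trans (rc0 (o := .zero) (s' := .ok) hf hk hφ ?_)
          (rc_ok hf hk hU v c)⟩
        cases φ <;> cases m <;> cases d <;> simp_all [lf, dl]
    | tk t =>
      rcases lfs_fs φ hφ t with ⟨h1, h2⟩ | ⟨φ', o, h1, h2, h3, h4⟩
      · have h5 : run1 W U φ m d c (.tk t :: v) = true := by simp [run1, h1]
        rw [h5]
        refine ⟨c, ReflTransGen.trans (rc0 (o := .zero) (s' := .ok) hf hk hφ ?_)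
          (rc_ok hf hk hU v c)⟩
        simp [dl, h2]
      · cases m with
        | true =>
          have h5 : run1 W U φ true d c (.tk t :: v) =
              run1 W U φ' false d (if d.map Prod.fst = some t.1 then c + 1 else c) v := by
            simp [run1, h1]
          rw [h5]
          obtain ⟨c', h6⟩ := ih φ' false d (if d.map Prod.fst = some t.1 then c + 1 else c) h4
          refine ⟨c', ReflTransGen.trans ?_ h6⟩
          by_cases h7 : d.map Prod.fst = some t.1
          · apply rc_step hf hk hφ <;> simp [dl, h2, h3, h7]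
          · apply rc_step hf hk hφ <;> simp [dl, h2, h3, h7]
        | false =>
          cases d with
          | some t' =>
            have h5 : run1 W U φ false (some t') c (.tk t :: v) = true := by simp [run1, h1]
            rw [h5]
            refine ⟨c, ReflTransGen.trans (rc0 (o := .zero) (s' := .ok) hf hk hφ ?_)
              (rc_ok hf hk hU v c)⟩
            simp [dl, h2]
          | none =>
            have h5 : run1 W U φ false none c (.tk t :: v) =
                run1 W U φ' false (some t) c v := by simp [run1, h1]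
            rw [h5]
            obtain ⟨c', h6⟩ := ih φ' false (some t) c h4
            refine ⟨c', ReflTransGen.trans ?_ h6⟩
            apply rc_step hf hk hφ <;> simp [dl, h2, h3]

end sim

/-! ### determinism -/

theorem reach_det {k : ℕ} {M : Mach} {x y z : Cfg k} (h1 : Reach M x y) (h2 : Reach M x z)
    (hy : step M y = none) (hz : step M z = none) : y = z := by
  induction h1 using ReflTransGen.head_induction_on with
  | refl =>
    rcases ReflTransGen.cases_head h2 with rfl | ⟨w, h3, -⟩
    · rfl
    · rw [hy] at h3; cases h3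
  | head h3 _ ih =>
    rcases ReflTransGen.cases_head h2 with rfl | ⟨w, h4, h5⟩
    · rw [hz] at h3; cases h3
    · rw [h3] at h4
      obtain rfl := Option.some.inj h4
      exact ih h5

theorem step_none {k : ℕ} (M : Mach) (q c : ℕ) : step M (⟨q, none, c⟩ : Cfg k) = none := rfl

section final

variable {k : ℕ} {W : Bool → A → List X} {ef : Ls X L → ℕ} {eg : Gl A X ≃ Fin k}
  {keys : List (Ls X L × Option (Gl A X) × Bool)}

theorem mem_lang (hf : Function.Injective ef) (hk : ∀ x, x ∈ keys)
    (hL : ∀ b i, (W b i).length ≤ L) (x : List X) (v : List (Gl A X)) :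
    v.map eg ∈ Lang k (mc W L ef eg keys (UU x)) ↔ acc W x v = true := by
  have hU : 0 < (UU x).length := by simp [UU]
  obtain ⟨c', h⟩ := rc_run1 (ef := ef) (eg := eg) (keys := keys) (U := UU x) hf hk hU hL v
    (.pre 0) false none 0 (by simpa [ko] using hU)
  change Reach _ (ini (mc W L ef eg keys (UU x)) (v.map eg)) _ at h
  constructor
  · rintro ⟨q, c, h1, h2⟩
    have h3 := reach_det h h1 (step_none _ _ _) (step_none _ _ _)
    have h4 := congrArg Cfg.q h3
    simp only [mc, List.mem_singleton] at h2
    simp only [cf, h2, Nat.pair_eq_pair, true_and] at h4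
    have h5 := hf h4
    simpa [acc] using h5
  · intro h1
    refine ⟨_, c', h, ?_⟩
    simp only [mc, List.mem_singleton, Nat.pair_eq_pair, true_and]
    have : run1 W (UU x) (.pre 0) false none 0 v = true := h1
    rw [this]

theorem oneReversal (hf : Function.Injective ef) (U : List (Tok X)) :
    OneReversal k (mc W L ef eg keys U) := by
  let P : ℕ → Prop := fun q => ∃ s : Ls X L, ef s = q.unpair.2 ∧ ph s = true
  have hent : ∀ e ∈ (mc W L ef eg keys U).2.1, (P e.1.1 → P e.2.1) ∧ (e.2.2.2 = 1 → ¬ P e.1.1) ∧
      (e.2.2.2 = 2 → P e.1.1) := by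
    intro e he
    simp only [mc, tab, List.mem_flatMap, List.mem_map] at he
    obtain ⟨κ, -, ⟨s, g, z⟩, -, rfl⟩ := he
    obtain ⟨h1, h2, h3⟩ := dl_ph W (info U κ) s g z
    refine ⟨?_, ?_, ?_⟩
    · rintro ⟨s', hs, hp⟩
      simp only [entry, Nat.unpair_pair] at hs
      obtain rfl := hf hs
      exact ⟨_, by simp [entry], h1 hp⟩
    · rintro he ⟨s', hs, hp⟩
      simp only [entry, Nat.unpair_pair] at hs
      obtain rfl := hf hs
      rw [h2 he] at hp
      cases hp
    · intro he
      exact ⟨s, by simp [entry], h3 he⟩
  have hst : ∀ x y : Cfg k, step (mc W L ef eg keys U) x = some y →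
      (P x.q → P y.q ∧ y.c ≤ x.c) ∧ (y.c < x.c → P x.q) := by
    intro x y h
    unfold step at h
    split at h
    · cases h
    rename_i w hw
    split at h
    · cases h
    rename_i q' b o hl
    have he := hent _ (mem_of_lookup hl)
    simp only at he
    by_cases h1 : o = 2 ∧ x.c = 0
    · rw [if_pos h1] at h
      cases h
    rw [if_neg h1, Option.some.injEq] at h
    subst h
    refine ⟨fun hp => ⟨he.1 hp, ?_⟩, fun hc => ?_⟩
    · have h2 : ¬ o = 1 := fun ho => he.2.1 ho hp
      simp only [h2, if_false]
      split_ifs <;> omega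
    · apply he.2.2
      by_contra h2
      simp only [h2, if_false] at hc
      split_ifs at hc
      · omega
      · omega
  intro w x x' y y' _ h1 h2 h3 h4
  have hx := (hst x x' h1).2 h2
  have hx' := ((hst x x' h1).1 hx).1
  have hy : P y.q := by
    clear h4 h2 h1
    induction h3 with
    | refl => exact hx'
    | tail _ hs ih => exact ((hst _ _ hs).1 ih).1
  exact ((hst y y' h4).1 hy).2

end final

end Pool.Agent.X238.Shf
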