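import Mathlib

set_option autoImplicit false

/-!
# Shuffle, and deterministic one-counter machines with one reversal
-/

namespace Pool.Agent.X238.Shf

open Relation

/-- `w` is a shuffle of `u` and `v`. -/
inductive IsShuffle {S : Type} : List S → List S → List S → Prop
  | nil : IsShuffle [] [] []
  | left (a : S) {u v w : List S} : IsShuffle u v w → IsShuffle (a :: u) v (a :: w)
  | right (a : S) {u v w : List S} : IsShuffle u v w → IsShuffle u (a :: v) (a :: w)

/-- The shuffle of two languages. -/
def Sh {S : Type} (L₁ L₂ : Language S) : Language S :=
  {w | ∃ u ∈ L₁, ∃ v ∈ L₂, IsShuffle u v w}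

/-- The code of a deterministic one-counter machine: the start state, the transitions, the
accepting states. A transition `((q, s, z), (q', b, o))` may be used in state `q` when the symbol
under the head is `s` (the letter number `s`, or the end-marker if `s` is the number of letters)
and when the counter is zero if `z` is true, nonzero if `z` is false; it leads to the state `q'`,
moves the head iff `b` is true, and adds `1` to the counter if `o = 1`, subtracts `1` if `o = 2`.
The first matching transition of the list is used, so the machine is deterministic. -/
abbrev Mach : Type := ℕ × List ((ℕ × ℕ × Bool) × (ℕ × Bool × ℕ)) × List ℕ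

/-- A configuration: state, rest of the input (`none` when the end-marker has been passed),
counter. -/
structure Cfg (k : ℕ) where
  q : ℕ
  inp : Option (List (Fin k))
  c : ℕ

/-- The symbol under the head. -/
def sym {k : ℕ} : List (Fin k) → ℕ
  | [] => k
  | a :: _ => a

/-- The rest of the input after a move of the head. -/
def adv {k : ℕ} : List (Fin k) → Option (List (Fin k))
  | [] => none
  | _ :: w => some w

/-- A step of the machine. -/
def step {k : ℕ} (M : Mach) (x : Cfg k) : Option (Cfg k) :=
  match x.inp with
  | none => none
  | some w =>
    match M.2.1.lookup (x.q, sym w, decide (x.c = 0)) with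
    | none => none
    | some (q', b, o) =>
      if o = 2 ∧ x.c = 0 then none
      else some ⟨q', if b then adv w else some w,
        if o = 1 then x.c + 1 else if o = 2 then x.c - 1 else x.c⟩

/-- Computations. -/
def Reach {k : ℕ} (M : Mach) : Cfg k → Cfg k → Prop := ReflTransGen fun x y => step M x = some y

/-- The initial configuration. -/
def ini {k : ℕ} (M : Mach) (w : List (Fin k)) : Cfg k := ⟨M.1, some w, 0⟩

/-- The machine is `1`-reversal-bounded: in every computation on every input over `Fin k`, the
counter is never increased after it has been decreased. -/
def OneReversal (k : ℕ) (M : Mach) : Prop :=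
  ∀ (w : List (Fin k)) (x x' y y' : Cfg k), Reach M (ini M w) x → step M x = some x' →
    x'.c < x.c → Reach M x' y → step M y = some y' → y'.c ≤ y.c

/-- The language accepted by final state, after the end-marker has been read. -/
def Lang (k : ℕ) (M : Mach) : Language (Fin k) :=
  {w | ∃ q c, Reach M (ini M w) ⟨q, none, c⟩ ∧ q ∈ M.2.2}

end Pool.Agent.X238.Shf
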