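import Pool.Agent.X238.Shf.Defs

set_option autoImplicit false

/-!
# The language of the second component

Tokens carry a type (`false`, `true`, for the two morphisms) and a letter or the sign `none`
for the beginning. In a correct word every token is preceded by the letter `al`.
-/

namespace Pool.Agent.X238.Shf

/-- tokens -/
abbrev Tok (X : Type) : Type := Bool × Option X

/-- letters -/
inductive Gl (A X : Type) : Type
  | al
  | hs
  | tk (t : Tok X)
  | ix (i : A)

/-- states of the format check: number of tokens of the fixed beginning, waiting for a token of
type `false`, waiting for the token of type `true` with the given letter -/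
inductive Fs (X : Type) : Type
  | pre (n : ℕ)
  | wg
  | wh (a : X)

variable {A X : Type} [DecidableEq X]

/-- format check for the tokens -/
def fs (U : List (Tok X)) : Fs X → Tok X → Option (Fs X)
  | .pre n, t => if U[n]? = some t then (if n + 1 = U.length then some .wg else some (.pre (n + 1)))
      else none
  | .wg, (false, some a) => some (.wh a)
  | .wg, _ => none
  | .wh a, (true, some b) => if a = b then some .wg else none
  | .wh _, _ => none

/-- the indices at the end -/
def allIx : List (Gl A X) → Bool
  | [] => true
  | .ix _ :: v => allIx v
  | _ :: _ => false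

/-- the value of the last part: comparison -/
def run2 (W : Bool → A → List X) : Tok X → ℕ → List (Gl A X) → Bool
  | (_, e), _, [] => decide (none ≠ e)
  | (b, e), c, .ix i :: v =>
      if h : c < (W b i).length then (if allIx v then decide (some (W b i)[c] ≠ e) else true)
      else run2 W (b, e) (c - (W b i).length) v
  | _, _, _ :: _ => true

/-- the value of the word: `true` iff it is accepted -/
def run1 (W : Bool → A → List X) (U : List (Tok X)) : Fs X → Bool → Option (Tok X) → ℕ →
    List (Gl A X) → Bool
  | _, _, _, _, [] => true
  | φ, false, d, c, .al :: v => run1 W U φ true d c v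
  | _, true, _, _, .al :: _ => true
  | φ, m, d, c, .tk t :: v =>
      match fs U φ t with
      | none => true
      | some φ' =>
        if m then run1 W U φ' false d (if d.map Prod.fst = some t.1 then c + 1 else c) v
        else match d with
          | some _ => true
          | none => run1 W U φ' false (some t) c v
  | .wg, false, none, _, .hs :: v => !(allIx v)
  | .wg, false, some t, c, .hs :: v => run2 W t c v
  | _, _, _, _, .hs :: _ => true
  | _, _, _, _, .ix _ :: _ => true

variable {W : Bool → A → List X} {U : List (Tok X)}

/-- the correct coding of tokens -/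
def en (ts : List (Tok X)) : List (Gl A X) := ts.flatMap fun t => [.al, .tk t]

omit [DecidableEq X] in
@[simp] theorem en_nil : (en [] : List (Gl A X)) = [] := rfl

omit [DecidableEq X] in
@[simp] theorem en_cons (t : Tok X) (ts : List (Tok X)) :
    (en (t :: ts) : List (Gl A X)) = .al :: .tk t :: en ts := by simp [en]

omit [DecidableEq X] in
@[simp] theorem en_append (ts ts' : List (Tok X)) :
    (en (ts ++ ts') : List (Gl A X)) = en ts ++ en ts' := by simp [en]

/-- the run of the format check -/
def fsr (U : List (Tok X)) : Fs X → List (Tok X) → Option (Fs X)
  | φ, [] => some φ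
  | φ, t :: ts => match fs U φ t with
    | none => none
    | some φ' => fsr U φ' ts

theorem fsr_append (ts ts' : List (Tok X)) : ∀ φ, fsr U φ (ts ++ ts') =
    (fsr U φ ts).bind fun φ' => fsr U φ' ts' := by
  induction ts with
  | nil => intro φ; rfl
  | cons t ts ih =>
    intro φ
    simp only [List.cons_append, fsr]
    cases fs U φ t with
    | none => rfl
    | some φ' => exact ih φ'

/-- number of tokens of a type -/
def cnt (b : Bool) (ts : List (Tok X)) : ℕ := (ts.filter fun t => t.1 = b).length

omit [DecidableEq X] in
theorem cnt_cons (b : Bool) (t : Tok X) (ts : List (Tok X)) :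
    cnt b (t :: ts) = (if t.1 = b then 1 else 0) + cnt b ts := by
  unfold cnt
  by_cases h : t.1 = b
  · simp [h]; omega
  · simp [h]

/-- the indices -/
def ixw (J : List A) : List (Gl A X) := J.map .ix

omit [DecidableEq X] in
theorem allIx_ixw (J : List A) : allIx (ixw J : List (Gl A X)) = true := by
  induction J with
  | nil => rfl
  | cons i J ih => simpa [ixw, allIx] using ih

omit [DecidableEq X] in
theorem exists_ixw {v : List (Gl A X)} (h : allIx v = true) : ∃ J, v = ixw J := by
  induction v with
  | nil => exact ⟨[], rfl⟩
  | cons g v ih =>
    cases g with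
    | ix i =>
      obtain ⟨J, rfl⟩ := ih h
      exact ⟨i :: J, rfl⟩
    | _ => simp [allIx] at h

theorem run2_ixw (b : Bool) (e : Option X) (J : List A) : ∀ c,
    run2 W (b, e) c (ixw J) = decide ((J.flatMap (W b))[c]? ≠ e) := by
  induction J with
  | nil => intro c; simp [ixw, run2]
  | cons i J ih =>
    intro c
    have ih' := ih (c - (W b i).length)
    simp only [ixw, List.map_cons, run2] at ih' ⊢
    by_cases h : c < (W b i).length
    · have h1 := allIx_ixw (X := X) J
      simp only [ixw] at h1
      simp only [h, dif_pos, h1, if_true, List.flatMap_cons]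
      congr 1
      rw [List.getElem?_append_left h, List.getElem?_eq_getElem h]
    · simp only [h, dif_neg, not_false_eq_true, ih', List.flatMap_cons]
      congr 1
      rw [List.getElem?_append_right (by omega)]

theorem run2_false {t : Tok X} {v : List (Gl A X)} : ∀ {c}, run2 W t c v = false → ∃ J, v = ixw J := by
  induction v with
  | nil => intro c _; exact ⟨[], rfl⟩
  | cons g v ih =>
    intro c h
    obtain ⟨b, e⟩ := t
    cases g with
    | ix i =>
      simp only [run2] at h
      split_ifs at h with h1 h2
      · obtain ⟨J, rfl⟩ := exists_ixw h2
        exact ⟨i :: J, rfl⟩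
      · obtain ⟨J, rfl⟩ := ih h
        exact ⟨i :: J, rfl⟩
    | _ => simp [run2] at h

/-- the run on a correct coding -/
theorem run1_en (ts : List (Tok X)) : ∀ (φ φ' : Fs X) (d : Option (Tok X)) (c : ℕ)
    (v : List (Gl A X)), fsr U φ ts = some φ' →
    run1 W U φ false d c (en ts ++ v) =
      run1 W U φ' false d (c + match d with | none => 0 | some t => cnt t.1 ts) v := by
  induction ts with
  | nil =>
    intro φ φ' d c v h
    simp only [fsr, Option.some.injEq] at h
    subst h
    cases d <;> simp [cnt]
  | cons t ts ih =>
    intro φ φ' d c v h
    simp only [fsr] at h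
    cases h1 : fs U φ t with
    | none => simp [h1] at h
    | some φ1 =>
      simp only [h1] at h
      simp only [en_cons, List.cons_append, run1, h1, if_true]
      rw [ih φ1 φ' d _ v h]
      cases d with
      | none => simp
      | some t' =>
        simp only [Option.map_some, Option.some.injEq, cnt_cons]
        congr 1
        by_cases h2 : t.1 = t'.1
        · simp [h2]; omega
        · have h3 : ¬ t'.1 = t.1 := fun h => h2 h.symm
          simp [h2, h3]

/-- a missing letter `al` -/
theorem run1_defect {t : Tok X} {φ φ' : Fs X} {c : ℕ} {v : List (Gl A X)}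
    (h : fs U φ t = some φ') :
    run1 W U φ false none c (.tk t :: v) = run1 W U φ' false (some t) c v := by
  simp [run1, h]

/-- a second missing letter `al` -/
theorem run1_defect2 {t t' : Tok X} {φ : Fs X} {c : ℕ} {v : List (Gl A X)} :
    run1 W U φ false (some t') c (.tk t :: v) = true := by
  simp only [run1]
  cases fs U φ t <;> simp

theorem run1_wg_none {c : ℕ} {J : List A} :
    run1 W U .wg false none c (.hs :: ixw J) = false := by
  simp [run1, allIx_ixw]

theorem run1_wg_some {c : ℕ} {t : Tok X} {J : List A} :
    run1 W U .wg false (some t) c (.hs :: ixw J) = decide ((J.flatMap (W t.1))[c]? ≠ t.2) := by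
  simp only [run1]
  exact run2_ixw t.1 t.2 J c

/-- words that are not accepted -/
theorem parse (n : ℕ) : ∀ (v : List (Gl A X)), v.length = n → ∀ (φ : Fs X) (d : Option (Tok X))
    (c : ℕ), run1 W U φ false d c v = false →
    ∃ ts J, fsr U φ ts = some .wg ∧ (v = en ts ++ .hs :: ixw J ∨
      ∃ ts1 t ts2, ts = ts1 ++ t :: ts2 ∧ v = en ts1 ++ .tk t :: (en ts2 ++ .hs :: ixw J)) := by
  induction n using Nat.strong_induction_on with
  | _ n ih =>
    intro v hv φ d c h
    cases v with
    | nil => simp [run1] at h
    | cons g v =>
      cases g with
      | ix i => cases φ <;> cases d <;> simp [run1] at h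
      | hs =>
        cases φ with
        | pre n => cases d <;> simp [run1] at h
        | wh a => cases d <;> simp [run1] at h
        | wg =>
          have : ∃ J, v = ixw J := by
            cases d with
            | none =>
              simp only [run1, Bool.not_eq_false'] at h
              exact exists_ixw h
            | some t => exact run2_false h
          obtain ⟨J, rfl⟩ := this
          exact ⟨[], J, rfl, Or.inl rfl⟩
      | tk t =>
        simp only [run1] at h
        cases h1 : fs U φ t with
        | none => simp [h1] at h
        | some φ1 =>
          simp only [h1, Bool.false_eq_true, if_false] at h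
          cases d with
          | some t' => simp at h
          | none =>
            simp only at h
            obtain ⟨ts, J, h2, h3⟩ := ih v.length (by simp at hv; omega) v rfl φ1 (some t) c h
            rcases h3 with h3 | ⟨ts1, t1, ts2, h3, h4⟩
            · refine ⟨t :: ts, J, by simp [fsr, h1, h2], Or.inr ⟨[], t, ts, rfl, ?_⟩⟩
              rw [h3]; simp
            · -- a second missing letter is impossible
              exfalso
              have h5 : fsr U φ1 (ts1 ++ t1 :: ts2) = some .wg := by rw [← h3]; exact h2
              rw [fsr_append] at h5
              cases h6 : fsr U φ1 ts1 with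
              | none => simp [h6] at h5
              | some φ2 =>
                rw [h4, run1_en ts1 _ _ _ _ _ h6, run1_defect2] at h
                cases h
      | al =>
        simp only [run1] at h
        cases v with
        | nil => simp [run1] at h
        | cons g v =>
          cases g with
          | ix i => cases φ <;> cases d <;> simp [run1] at h
          | hs => cases φ <;> cases d <;> simp [run1] at h
          | al => cases φ <;> cases d <;> simp [run1] at h
          | tk t =>
            simp only [run1] at h
            cases h1 : fs U φ t with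
            | none => simp [h1] at h
            | some φ1 =>
              simp only [h1, if_true] at h
              obtain ⟨ts, J, h2, h3⟩ := ih v.length (by simp at hv; omega) v rfl φ1 d _ h
              rcases h3 with h3 | ⟨ts1, t1, ts2, h3, h4⟩
              · refine ⟨t :: ts, J, by simp [fsr, h1, h2], Or.inl ?_⟩
                rw [h3]; simp
              · refine ⟨t :: ts, J, by simp [fsr, h1, h2], Or.inr ⟨t :: ts1, t1, ts2, by simp [h3], ?_⟩⟩
                rw [h4]; simp

omit [DecidableEq X] in
/-- the occurrences of `al` in a correct word -/
theorem occ_al {J : List A} : ∀ (ts : List (Tok X)) (w1 w2 : List (Gl A X)),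
    en ts ++ .hs :: ixw J = w1 ++ .al :: w2 → ∃ ts1 t ts2, ts = ts1 ++ t :: ts2 ∧ w1 = en ts1 ∧
      w2 = .tk t :: (en ts2 ++ .hs :: ixw J) := by
  intro ts
  induction ts with
  | nil =>
    intro w1 w2 h
    exfalso
    have : (Gl.al : Gl A X) ∈ en [] ++ Gl.hs :: ixw J := by rw [h]; simp
    simp [ixw] at this
  | cons t ts ih =>
    intro w1 w2 h
    cases w1 with
    | nil =>
      simp only [en_cons, List.cons_append, List.nil_append, List.cons.injEq, true_and] at h
      exact ⟨[], t, ts, rfl, rfl, h.symm⟩
    | cons g w1 =>
      simp only [en_cons, List.cons_append, List.cons.injEq] at h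
      obtain ⟨rfl, h⟩ := h
      cases w1 with
      | nil => simp at h
      | cons g w1 =>
        simp only [List.cons_append, List.cons.injEq] at h
        obtain ⟨rfl, h⟩ := h
        obtain ⟨ts1, t1, ts2, rfl, rfl, rfl⟩ := ih _ _ h
        exact ⟨t :: ts1, t1, ts2, rfl, by simp, rfl⟩

/-! ### the tokens of a solution -/

/-- the fixed beginning -/
def UU (x : List X) : List (Tok X) := (false, none) :: (x.map fun a => (false, some a)) ++ [(true, none)]

/-- the tokens of a word -/
def tks (x y : List X) : List (Tok X) :=
  UU x ++ y.flatMap fun a => [(false, some a), (true, some a)]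

theorem fsr_pre : ∀ (n : ℕ) (ts : List (Tok X)), ts.length = n → ∀ m, U.drop m = ts → ts ≠ [] →
    fsr U (.pre m) ts = some .wg := by
  intro n
  induction n with
  | zero => intro ts h m _ h2; exact absurd (List.length_eq_zero_iff.1 h) h2
  | succ n ih =>
    intro ts h m hd hne
    cases ts with
    | nil => exact absurd rfl hne
    | cons t ts =>
      have hm : U[m]? = some t := by
        have := congrArg List.head? hd
        rwa [List.head?_drop] at this
      have hd' : U.drop (m + 1) = ts := by
        rw [← List.drop_drop, hd]; rfl
      simp only [fsr, fs, hm, if_true]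
      have hlen : U.length = m + (ts.length + 1) := by
        have h1 := congrArg List.length hd
        simp only [List.length_drop, List.length_cons] at h1
        have h2 : m < U.length := by
          by_contra h3
          rw [List.getElem?_eq_none (by omega)] at hm
          cases hm
        omega
      by_cases hts : ts = []
      · subst hts
        simp at hlen
        simp [hlen, fsr]
      · have : 0 < ts.length := List.length_pos_iff.2 hts
        rw [if_neg (by omega)]
        exact ih ts (by simpa using h) (m + 1) hd' hts

theorem fsr_wg (y : List X) :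
    fsr U .wg (y.flatMap fun a => [(false, some a), (true, some a)]) = some .wg := by
  induction y with
  | nil => rfl
  | cons a y ih => simp [fsr, fs, ih]

theorem fsr_tks (x y : List X) : fsr (UU x) (.pre 0) (tks x y) = some .wg := by
  rw [tks, fsr_append, fsr_pre _ (UU x) rfl 0 (by simp) (by simp [UU])]
  exact fsr_wg y

theorem of_fsr_wg (n : ℕ) : ∀ ts : List (Tok X), ts.length = n → fsr U .wg ts = some .wg →
    ∃ y : List X, ts = y.flatMap fun a => [(false, some a), (true, some a)] := by
  induction n using Nat.strong_induction_on with
  | _ n ih =>
    intro ts hn h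
    match ts with
    | [] => exact ⟨[], rfl⟩
    | (false, some a) :: (true, some b) :: ts =>
      simp only [fsr, fs] at h
      by_cases hab : a = b
      · subst hab
        simp only [if_true] at h
        obtain ⟨y, rfl⟩ := ih ts.length (by simp at hn; omega) ts rfl h
        exact ⟨a :: y, rfl⟩
      · simp [hab] at h
    | (false, some a) :: (true, none) :: ts => simp [fsr, fs] at h
    | (false, some a) :: (false, _) :: ts => simp [fsr, fs] at h
    | [(false, some a)] => simp [fsr, fs] at h
    | (false, none) :: ts => simp [fsr, fs] at h
    | (true, _) :: ts => simp [fsr, fs] at h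

theorem of_fsr_pre (ts : List (Tok X)) : ∀ m, m < U.length → fsr U (.pre m) ts = some .wg →
    ∃ y : List X, ts = U.drop m ++ y.flatMap fun a => [(false, some a), (true, some a)] := by
  induction ts with
  | nil => intro m _ h; simp [fsr] at h
  | cons t ts ih =>
    intro m hm h
    simp only [fsr, fs] at h
    by_cases h1 : U[m]? = some t
    · simp only [h1, if_true] at h
      have hd : U.drop m = t :: U.drop (m + 1) := by
        rw [List.getElem?_eq_getElem hm] at h1
        rw [List.drop_eq_getElem_cons hm]
        rw [Option.some.inj h1]
      by_cases h2 : m + 1 = U.length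
      · rw [if_pos h2] at h
        obtain ⟨y, rfl⟩ := of_fsr_wg _ ts rfl h
        refine ⟨y, ?_⟩
        rw [hd, h2, List.drop_length]
        rfl
      · rw [if_neg h2] at h
        obtain ⟨y, rfl⟩ := ih (m + 1) (by omega) h
        exact ⟨y, by rw [hd]; rfl⟩
    · simp [h1] at h

theorem of_fsr {x : List X} {ts : List (Tok X)} (h : fsr (UU x) (.pre 0) ts = some .wg) :
    ∃ y, ts = tks x y := by
  obtain ⟨y, h1⟩ := of_fsr_pre ts 0 (by simp [UU]) h
  exact ⟨y, by rw [h1, tks, List.drop_zero]⟩

omit [DecidableEq X] in
/-- comparison of a word with the entries counted from the end -/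
theorem rev_iff (z G : List X) :
    (∀ l1 (e : Option X) l2, none :: z.map some = l1 ++ e :: l2 → G[l2.length]? = e) ↔
      G = z.reverse := by
  constructor
  · intro h
    have h0 : G[z.length]? = none := by
      have := h [] none (z.map some) rfl
      simpa using this
    have hlen : G.length ≤ z.length := List.getElem?_eq_none_iff.1 h0
    apply List.ext_getElem?
    intro j
    by_cases hj : j < z.length
    · have h1 : z = z.take (z.length - 1 - j) ++ z[z.length - 1 - j] ::
          z.drop (z.length - 1 - j + 1) := by
        rw [← List.drop_eq_getElem_cons (by omega), List.take_append_drop]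
      have h2 := h (none :: (z.take (z.length - 1 - j)).map some) (some z[z.length - 1 - j])
        ((z.drop (z.length - 1 - j + 1)).map some) (by
          have h2 := congrArg (List.map some) h1
          rw [List.map_append, List.map_cons] at h2
          rw [List.cons_append]
          exact congrArg (List.cons none) h2)
      rw [List.length_map, List.length_drop] at h2
      have e : z.length - (z.length - 1 - j + 1) = j := by omega
      rw [e] at h2
      rw [h2, List.getElem?_reverse hj, List.getElem?_eq_getElem]
    · rw [List.getElem?_eq_none (by omega), List.getElem?_eq_none (by simpa using by omega)]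
  · rintro rfl l1 e l2 h
    cases l1 with
    | nil =>
      simp only [List.nil_append, List.cons.injEq] at h
      obtain ⟨rfl, rfl⟩ := h
      simp
    | cons a l1 =>
      simp only [List.cons_append, List.cons.injEq] at h
      obtain ⟨-, h⟩ := h
      obtain ⟨z1, z2, rfl, rfl, h2⟩ := List.map_eq_append_iff.1 h
      cases z2 with
      | nil => simp at h2
      | cons b z2 =>
        simp only [List.map_cons, List.cons.injEq] at h2
        obtain ⟨rfl, rfl⟩ := h2
        simp

omit [DecidableEq X] in
theorem filter_split {p : Tok X → Bool} : ∀ (ts l1 l2 : List (Tok X)) (t : Tok X),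
    ts.filter p = l1 ++ t :: l2 → ∃ ts1 ts2, ts = ts1 ++ t :: ts2 ∧ ts1.filter p = l1 ∧
      ts2.filter p = l2 ∧ p t = true := by
  intro ts
  induction ts with
  | nil => intro l1 l2 t h; simp at h
  | cons s ts ih =>
    intro l1 l2 t h
    by_cases hs : p s = true
    · rw [List.filter_cons_of_pos hs] at h
      cases l1 with
      | nil =>
        simp only [List.nil_append, List.cons.injEq] at h
        obtain ⟨rfl, h⟩ := h
        exact ⟨[], ts, rfl, rfl, h, hs⟩
      | cons a l1 =>
        simp only [List.cons_append, List.cons.injEq] at h
        obtain ⟨rfl, h⟩ := h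
        obtain ⟨ts1, ts2, rfl, h1, h2, h3⟩ := ih _ _ _ h
        exact ⟨s :: ts1, ts2, rfl, by rw [List.filter_cons_of_pos hs, h1], h2, h3⟩
    · rw [List.filter_cons_of_neg hs] at h
      obtain ⟨ts1, ts2, rfl, h1, h2, h3⟩ := ih _ _ _ h
      exact ⟨s :: ts1, ts2, rfl, by rw [List.filter_cons_of_neg hs, h1], h2, h3⟩

omit [DecidableEq X] in
theorem tks_false (x y : List X) : ((tks x y).filter fun t => t.1 = false).map Prod.snd =
    none :: (x ++ y).map some := by
  have h1 : ∀ y : List X, ((y.flatMap fun a => [((false, some a) : Tok X), (true, some a)]).filter
      fun t => t.1 = false).map Prod.snd = y.map some := by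
    intro y
    induction y with
    | nil => rfl
    | cons a y ih => simpa using ih
  have h2 : ∀ y : List X, ((y.map fun a => ((false, some a) : Tok X)).filter
      fun t => t.1 = false).map Prod.snd = y.map some := by
    intro y
    induction y with
    | nil => rfl
    | cons a y ih => simpa using ih
  have h3 := h2 x
  simp only [tks, UU, List.filter_append, List.map_append, h1]
  simpa using h3

omit [DecidableEq X] in
theorem tks_true (x y : List X) : ((tks x y).filter fun t => t.1 = true).map Prod.snd =
    none :: y.map some := by
  have h1 : ∀ y : List X, ((y.flatMap fun a => [((false, some a) : Tok X), (true, some a)]).filter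
      fun t => t.1 = true).map Prod.snd = y.map some := by
    intro y
    induction y with
    | nil => rfl
    | cons a y ih => simpa using ih
  have h2 : ∀ y : List X, ((y.map fun a => ((false, some a) : Tok X)).filter
      fun t => t.1 = true).map Prod.snd = [] := by
    intro y
    induction y with
    | nil => rfl
    | cons a y ih => simp
  simp only [tks, UU, List.filter_append, List.map_append, h1]
  simp

omit [DecidableEq X] in
/-- all the tokens of a type agree with the word -/
theorem tok_iff (b : Bool) (ts : List (Tok X)) (z G : List X)
    (hz : (ts.filter fun t => t.1 = b).map Prod.snd = none :: z.map some) :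
    (∀ ts1 t ts2, ts = ts1 ++ t :: ts2 → t.1 = b → G[cnt b ts2]? = t.2) ↔ G = z.reverse := by
  rw [← rev_iff]
  constructor
  · intro h l1 e l2 he
    rw [← hz] at he
    obtain ⟨m1, m2, h1, rfl, h2⟩ := List.map_eq_append_iff.1 he
    cases m2 with
    | nil => simp at h2
    | cons t m2 =>
      simp only [List.map_cons, List.cons.injEq] at h2
      obtain ⟨rfl, rfl⟩ := h2
      obtain ⟨ts1, ts2, h3, h4, h5, h6⟩ := filter_split _ _ _ _ h1
      have := h ts1 t ts2 h3 (by simpa using h6)
      rw [List.length_map, ← h5]
      exact this
  · rintro h ts1 t ts2 rfl hb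
    have h1 := h ((ts1.filter fun t => t.1 = b).map Prod.snd) t.2
      ((ts2.filter fun t => t.1 = b).map Prod.snd) (by
        rw [← hz]
        simp [List.filter_append, List.filter_cons, hb])
    rw [List.length_map] at h1
    exact h1

/-- the value of a word -/
def acc (W : Bool → A → List X) (x : List X) (v : List (Gl A X)) : Bool :=
  run1 W (UU x) (.pre 0) false none 0 v

/-- The main equivalence. -/
theorem acc_iff (W : Bool → A → List X) (x : List X) :
    (∀ w : List (Gl A X), acc W x w = true ∨ ∃ w1 w2, w = w1 ++ .al :: w2 ∧
      acc W x (w1 ++ w2) = true) ↔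
    ¬ ∃ (y : List X) (J : List A), J.flatMap (W false) = (x ++ y).reverse ∧
      J.flatMap (W true) = y.reverse := by
  -- the value of a word with one missing letter
  have hdef : ∀ (ts1 : List (Tok X)) (t : Tok X) (ts2 : List (Tok X)) (J : List A),
      fsr (UU x) (.pre 0) (ts1 ++ t :: ts2) = some .wg →
      acc W x (en ts1 ++ .tk t :: (en ts2 ++ .hs :: ixw J)) =
        decide ((J.flatMap (W t.1))[cnt t.1 ts2]? ≠ t.2) := by
    intro ts1 t ts2 J h
    rw [fsr_append] at h
    cases h1 : fsr (UU x) (.pre 0) ts1 with
    | none => simp [h1] at h
    | some φ1 =>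
      simp only [h1, Option.bind_some, fsr] at h
      cases h2 : fs (UU x) φ1 t with
      | none => simp [h2] at h
      | some φ2 =>
        simp only [h2] at h
        rw [acc, run1_en ts1 _ _ _ _ _ h1, run1_defect h2, run1_en ts2 _ _ _ _ _ h]
        simp only [Nat.zero_add]
        exact run1_wg_some
  constructor
  · rintro h ⟨y, J, h1, h2⟩
    have hall : ∀ ts1 t ts2, tks x y = ts1 ++ t :: ts2 →
        (J.flatMap (W t.1))[cnt t.1 ts2]? = t.2 := by
      intro ts1 t ts2 ht
      rcases hb : t.1 with _ | _
      · have := (tok_iff false (tks x y) (x ++ y) (J.flatMap (W false)) (tks_false x y)).2 h1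
          ts1 t ts2 ht hb
        exact this
      · have := (tok_iff true (tks x y) y (J.flatMap (W true)) (tks_true x y)).2 h2
          ts1 t ts2 ht hb
        exact this
    rcases h (en (tks x y) ++ .hs :: ixw J) with h3 | ⟨w1, w2, h3, h4⟩
    · rw [acc, run1_en _ _ _ _ _ _ (fsr_tks x y), run1_wg_none] at h3
      cases h3
    · obtain ⟨ts1, t, ts2, h5, rfl, rfl⟩ := occ_al _ _ _ h3
      rw [hdef ts1 t ts2 J (by rw [← h5]; exact fsr_tks x y)] at h4
      simp only [decide_eq_true_eq] at h4
      exact h4 (hall ts1 t ts2 h5)
  · intro hns w
    by_cases hw : acc W x w = true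
    · exact Or.inl hw
    right
    rw [Bool.not_eq_true] at hw
    obtain ⟨ts, J, h1, h2⟩ := parse _ w rfl _ _ _ hw
    obtain ⟨y, rfl⟩ := of_fsr h1
    rcases h2 with rfl | ⟨ts1, t, ts2, h3, rfl⟩
    · -- a complete word
      by_contra hcon
      apply hns
      have hall : ∀ ts1 t ts2, tks x y = ts1 ++ t :: ts2 →
          (J.flatMap (W t.1))[cnt t.1 ts2]? = t.2 := by
        intro ts1 t ts2 ht
        by_contra hne
        apply hcon
        refine ⟨en ts1, .tk t :: (en ts2 ++ .hs :: ixw J), by rw [ht]; simp, ?_⟩
        rw [hdef ts1 t ts2 J (by rw [← ht]; exact h1)]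
        simpa using hne
      refine ⟨y, J, ?_, ?_⟩
      · refine (tok_iff false (tks x y) (x ++ y) _ (tks_false x y)).1 ?_
        intro ts1 t ts2 ht hb
        have := hall ts1 t ts2 ht
        rwa [hb] at this
      · refine (tok_iff true (tks x y) y _ (tks_true x y)).1 ?_
        intro ts1 t ts2 ht hb
        have := hall ts1 t ts2 ht
        rwa [hb] at this
    · -- a missing letter: delete another one
      rw [h3, fsr_append] at h1
      cases ts1 with
      | cons s ts1 =>
        refine ⟨[], .tk s :: (en ts1 ++ .tk t :: (en ts2 ++ .hs :: ixw J)), by simp, ?_⟩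
        simp only [fsr] at h1
        cases h4 : fs (UU x) (.pre 0) s with
        | none => simp [h4] at h1
        | some φ1 =>
          simp only [h4] at h1
          cases h5 : fsr (UU x) φ1 ts1 with
          | none => simp [h5] at h1
          | some φ2 =>
            rw [List.nil_append, acc, run1_defect h4, run1_en ts1 _ _ _ _ _ h5, run1_defect2]
      | nil =>
        cases ts2 with
        | nil =>
          exfalso
          have := congrArg List.length h3
          simp [tks, UU] at this
        | cons s ts2 =>
          refine ⟨[.tk t], .tk s :: (en ts2 ++ .hs :: ixw J), by simp, ?_⟩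
          simp only [fsr, Option.bind_some] at h1
          cases h4 : fs (UU x) (.pre 0) t with
          | none => simp [h4] at h1
          | some φ1 =>
            change run1 W (UU x) (.pre 0) false none 0 (.tk t :: (.tk s :: _)) = true
            rw [run1_defect h4, run1_defect2]

end Pool.Agent.X238.Shf
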